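import Pool.Agent.KOB.Main

/-!
# Oblivious enumeration for approximate Nash equilibria needs `n ^ (c log n / ε ^ 2)` candidates
-/

set_option autoImplicit false

open MeasureTheory

noncomputable section

namespace Pool.Agent.Results.MP_495dcb_lc.ObliviousBound

open Pool.Agent.KOB

/-- There are `c, ε₀ > 0` and `n₀` such that for all `n ≥ n₀` and `n ^ (-1/10) ≤ ε ≤ ε₀` there is a
payoff matrix `A` such that for all probability measures `μ`, `ν` on `ℝⁿ` there is a payoff matrix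
`B` such that the set of the row strategies of the `ε`-approximate Nash equilibria of `(A, B)` has
measure at most `exp (- c (log n)^2 / ε^2)` for `μ`, and the set of the column strategies for
`ν`. -/
theorem result : ∃ c ε₀ : ℝ, ∃ n₀ : ℕ, 0 < c ∧ 0 < ε₀ ∧ ∀ n : ℕ, n₀ ≤ n → ∀ ε : ℝ,
    (n : ℝ) ^ (-(1 / 10 : ℝ)) ≤ ε → ε ≤ ε₀ → ∃ A : Fin n → Fin n → ℝ,
      (∀ i j, A i j = 0 ∨ A i j = 1 / 2 ∨ A i j = 1) ∧
      ∀ (μ ν : Measure (Fin n → ℝ)) [IsProbabilityMeasure μ] [IsProbabilityMeasure ν],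
        ∃ B : Fin n → Fin n → ℝ,
          (∀ i j, B i j = 0 ∨ B i j = 1 / 2 ∨ B i j = 3 / 4 ∨ B i j = 1) ∧
          μ {x | ∃ y, IsNE A B ε x y} ≤
            ENNReal.ofReal (Real.exp (-(c * Real.log n ^ 2 / ε ^ 2))) ∧
          ν {y | ∃ x, IsNE A B ε x y} ≤
            ENNReal.ofReal (Real.exp (-(c * Real.log n ^ 2 / ε ^ 2))) :=
  main

end Pool.Agent.Results.MP_495dcb_lc.ObliviousBound
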